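import Mathlib

/-!
# Hereditary minimum certificates force the complete Pick property

If a CP kernel `s` restricts to a minimum certificate of `k` over every nonempty subset, then
`k` equals `s` up to a dyad and `k` is CP.  It is enough to look at two-point subsets.
-/

open scoped ComplexOrder
open Matrix

namespace Pool.Agent.Results.MP_a92470_an.HereditaryCertificate

/-- `k` is a kernel: all the matrices `[k(x_i, x_j)]` of finite families are positive
semidefinite. -/
def IsKernel {X : Type*} (k : X → X → ℂ) : Prop :=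
  ∀ (ι : Type) [Fintype ι] (x : ι → X), (Matrix.of fun i j => k (x i) (x j)).PosSemidef

/-- The block matrix `[(I - W_i W_j^*) s(x_i, x_j)]_{i,j}`, where the `W_i` are `n × n`. -/
def pickMatrix {X : Type*} {ι : Type} {n : ℕ} (s : X → X → ℂ) (x : ι → X)
    (W : ι → Matrix (Fin n) (Fin n) ℂ) : Matrix (ι × Fin n) (ι × Fin n) ℂ :=
  Matrix.of fun p q => s (x p.1) (x q.1) * (1 - W p.1 * (W q.1)ᴴ) p.2 q.2

/-- `Φ` is a multiplier of `H(s) ⊗ ℂ^n` with multiplier norm at most `1`: the matrix valued
function `(I - Φ(x) Φ(y)^*) s(x, y)` is positive semidefinite. -/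
def IsContractiveMultiplier {X : Type*} {n : ℕ} (s : X → X → ℂ)
    (Φ : X → Matrix (Fin n) (Fin n) ℂ) : Prop :=
  ∀ (ι : Type) [Fintype ι] (x : ι → X), (pickMatrix s x (fun i => Φ (x i))).PosSemidef

/-- The complete Pick property of the kernel `s`. -/
def IsCP {X : Type*} (s : X → X → ℂ) : Prop :=
  IsKernel s ∧ ∀ (n : ℕ) (ι : Type) [Fintype ι] (x : ι → X), Function.Injective x →
    ∀ W : ι → Matrix (Fin n) (Fin n) ℂ, (pickMatrix s x W).PosSemidef →
      ∃ Φ : X → Matrix (Fin n) (Fin n) ℂ, IsContractiveMultiplier s Φ ∧ ∀ i, Φ (x i) = W i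

/-- `s` is a certificate for `k`: `s` is CP and `k = (1 - h) s` for some kernel `h`. -/
def IsCertificate {X : Type*} (k s : X → X → ℂ) : Prop :=
  IsCP s ∧ ∃ h : X → X → ℂ, IsKernel h ∧ ∀ x y, k x y = (1 - h x y) * s x y

/-- `s` is a minimum certificate for `k`: it is a certificate, and for every certificate `t` of
`k` the quotient `t / s` is a kernel, that is, `t = g s` for some kernel `g`. -/
def IsMinimumCertificate {X : Type*} (k s : X → X → ℂ) : Prop :=
  IsCertificate k s ∧ ∀ t : X → X → ℂ, IsCertificate k t →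
    ∃ g : X → X → ℂ, IsKernel g ∧ ∀ x y, t x y = g x y * s x y

section basics

variable {X : Type*}

lemma IsKernel.comp {Y : Type*} {k : X → X → ℂ} (hk : IsKernel k) (f : Y → X) :
    IsKernel (fun a b => k (f a) (f b)) := fun ι _ x => hk ι (fun i => f (x i))

lemma IsKernel.star {k : X → X → ℂ} (hk : IsKernel k) (x y : X) :
    k y x = starRingEnd ℂ (k x y) := by
  have h := (hk (Fin 2) ![x, y]).1
  have := h.apply 1 0
  simpa using this.symm

lemma IsKernel.diag_nonneg {k : X → X → ℂ} (hk : IsKernel k) (x : X) :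
    0 ≤ (k x x).re ∧ (k x x).im = 0 := by
  have h := (hk (Fin 1) ![x]).diag_nonneg (i := 0)
  have h' : 0 ≤ k x x := by simpa using h
  rw [Complex.le_def] at h'
  exact ⟨by simpa using h'.1, by simpa using h'.2.symm⟩

lemma IsKernel.normSq_le {k : X → X → ℂ} (hk : IsKernel k) (x y : X) :
    Complex.normSq (k x y) ≤ (k x x).re * (k y y).re := by
  have hd := (hk (Fin 2) ![x, y]).det_nonneg
  rw [Matrix.det_fin_two] at hd
  simp only [Matrix.of_apply, Matrix.cons_val_zero, Matrix.cons_val_one] at hd
  rw [Complex.le_def] at hd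
  have h1 := hd.1
  rw [hk.star x y, Complex.mul_conj] at h1
  simp only [Complex.zero_re, Complex.sub_re, Complex.mul_re, Complex.ofReal_re,
    (hk.diag_nonneg x).2, (hk.diag_nonneg y).2, mul_zero, sub_zero] at h1
  linarith

lemma IsKernel.eq_zero {k : X → X → ℂ} (hk : IsKernel k) {x : X} (hx : k x x = 0) (y : X) :
    k x y = 0 ∧ k y x = 0 := by
  have h := hk.normSq_le x y
  rw [hx] at h
  simp only [Complex.zero_re, zero_mul] at h
  have h0 : k x y = 0 := Complex.normSq_eq_zero.1 (le_antisymm h (Complex.normSq_nonneg _))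
  exact ⟨h0, by rw [hk.star x y, h0]; simp⟩

lemma zero_kernel : IsKernel (fun _ _ : X => (0 : ℂ)) := by
  intro ι _ x
  have : (Matrix.of fun _ _ : ι => (0 : ℂ)) = 0 := by ext; rfl
  rw [this]
  exact Matrix.PosSemidef.zero

/-- constant contractions are multipliers -/
lemma const_multiplier {k : X → X → ℂ} (hk : IsKernel k) {n : ℕ}
    {W : Matrix (Fin n) (Fin n) ℂ} (hW : (1 - W * Wᴴ).PosSemidef) :
    IsContractiveMultiplier k (fun _ => W) := by
  classical
  intro ι _ x
  have h := (hk ι x).kronecker hW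
  exact h

end basics

/-- Every kernel on a space with at most two points is CP. -/
lemma isCP_of_two {X : Type*} {k : X → X → ℂ} (hk : IsKernel k) (a b : X)
    (hab : ∀ x, x = a ∨ x = b) : IsCP k := by
  classical
  refine ⟨hk, ?_⟩
  intro n ι _ x hx W hW
  by_cases hsurj : Function.Surjective x
  · -- the interpolation problem prescribes all the values
    choose g hg using hsurj
    refine ⟨fun y => W (g y), ?_, ?_⟩
    · intro κ _ y
      have h := hW.submatrix (fun p : κ × Fin n => (g (y p.1), p.2))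
      convert h using 1
      ext p q
      simp [pickMatrix, Matrix.submatrix_apply, hg]
    · intro i
      show W (g (x i)) = W i
      rw [hx (hg (x i))]
  · -- at most one point is prescribed
    have hsub : ∀ i j : ι, i = j := by
      intro i j
      by_contra hij
      apply hsurj
      have hne : x i ≠ x j := fun h => hij (hx h)
      intro y
      rcases hab (x i) with hi | hi <;> rcases hab (x j) with hj | hj <;> rcases hab y with hy | hy
      · exact ⟨i, by rw [hi, hy]⟩
      · exact absurd (hi.trans hj.symm) hne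
      · exact ⟨i, by rw [hi, hy]⟩
      · exact ⟨j, by rw [hj, hy]⟩
      · exact ⟨j, by rw [hj, hy]⟩
      · exact ⟨i, by rw [hi, hy]⟩
      · exact absurd (hi.trans hj.symm) hne
      · exact ⟨i, by rw [hi, hy]⟩
    rcases isEmpty_or_nonempty ι with hι | ⟨⟨i0⟩⟩
    · refine ⟨fun _ => 0, const_multiplier hk ?_, fun i => (IsEmpty.false i).elim⟩
      simpa using Matrix.PosSemidef.one
    · by_cases h0 : k (x i0) (x i0) = 0
      · refine ⟨fun y => if y = x i0 then W i0 else 0, ?_, ?_⟩
        · intro κ _ y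
          have h1 : IsContractiveMultiplier k (fun _ : X => (0 : Matrix (Fin n) (Fin n) ℂ)) :=
            const_multiplier hk (by simpa using Matrix.PosSemidef.one)
          have h2 := h1 κ y
          convert h2 using 1
          ext p q
          simp only [pickMatrix, Matrix.of_apply]
          by_cases hp : y p.1 = x i0
          · rw [hp, (hk.eq_zero h0 _).1]; simp
          · by_cases hq : y q.1 = x i0
            · rw [hq, (hk.eq_zero h0 _).2]; simp
            · rw [if_neg hp, if_neg hq]
        · intro i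
          rw [hsub i i0]
          simp
      · refine ⟨fun _ => W i0, const_multiplier hk ?_, fun i => by rw [hsub i i0]⟩
        have h := hW.submatrix (fun p : Fin n => (i0, p))
        have hd := hk.diag_nonneg (x i0)
        have hpos : 0 < (k (x i0) (x i0)).re := by
          rcases lt_or_eq_of_le hd.1 with h | h
          · exact h
          · exact absurd (Complex.ext h.symm hd.2) h0
        have hreal : k (x i0) (x i0) = (((k (x i0) (x i0)).re : ℝ) : ℂ) :=
          Complex.ext (by simp) (by simp [hd.2])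
        have h' : (pickMatrix k x W).submatrix (fun p : Fin n => (i0, p))
            (fun p : Fin n => (i0, p)) = k (x i0) (x i0) • (1 - W i0 * (W i0)ᴴ) := by
          ext p q
          simp [pickMatrix, Matrix.submatrix_apply]
        rw [h'] at h
        have h2 := h.smul (a := (((k (x i0) (x i0)).re : ℝ) : ℂ)⁻¹)
          (by
            rw [← Complex.ofReal_inv]
            exact_mod_cast (inv_pos.2 hpos).le)
        rw [smul_smul, hreal] at h2
        simp only [Complex.ofReal_re] at h2
        rw [inv_mul_cancel₀ (by exact_mod_cast hpos.ne'), one_smul] at h2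
        exact h2

/-- The elementary inequality behind the proof. -/
lemma two_point_rigidity {a b u v : ℝ} (ha : 0 ≤ a) (hb : 0 ≤ b) (ha1 : a ≤ 1) (hb1 : b ≤ 1)
    (h1 : u ^ 2 + v ^ 2 ≤ a * b) (h2 : (1 - u) ^ 2 + v ^ 2 ≤ (1 - a) * (1 - b)) :
    a = b ∧ u = a ∧ v = 0 := by
  set m := (a + b) / 2 with hm
  set d := (a - b) / 2 with hd
  have hu : u ≤ m := by
    by_contra h
    push Not at h
    nlinarith [sq_nonneg v, sq_nonneg d, sq_nonneg (u - m)]
  have hm1 : m ≤ 1 := by rw [hm]; linarith
  have hkey : d ^ 2 + v ^ 2 + (m - u) * (2 - m - u) ≤ 0 := by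
    rw [hm, hd]
    nlinarith
  have h3 : 0 ≤ (m - u) * (2 - m - u) := mul_nonneg (by linarith) (by linarith)
  have hd0 : d = 0 := by
    have : d ^ 2 ≤ 0 := by nlinarith [sq_nonneg v]
    exact pow_eq_zero_iff (two_ne_zero) |>.1 (le_antisymm this (sq_nonneg d))
  have hv0 : v = 0 := by
    have : v ^ 2 ≤ 0 := by nlinarith [sq_nonneg d]
    exact pow_eq_zero_iff (two_ne_zero) |>.1 (le_antisymm this (sq_nonneg v))
  have hab : a = b := by rw [hd] at hd0; linarith
  have hma : m = a := by rw [hm]; linarith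
  refine ⟨hab, ?_, hv0⟩
  have h4 : (m - u) * (2 - m - u) ≤ 0 := by nlinarith [sq_nonneg v, sq_nonneg d]
  have h5 : m - u = 0 := by
    by_contra h
    have h6 : 0 < m - u := lt_of_le_of_ne (by linarith) (Ne.symm h)
    have h7 : 0 < 2 - m - u := by linarith
    nlinarith [mul_pos h6 h7]
  linarith

variable {X : Type*}

/-- On a pair of points where `s` does not vanish, `h` is constant. -/
lemma h_const {k s h : X → X → ℂ} (hk : IsKernel k) (hs : IsKernel s) (hh : IsKernel h)
    (hks : ∀ x y, k x y = (1 - h x y) * s x y)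
    (hmin : ∀ X' : Set X, X'.Nonempty →
      IsMinimumCertificate (fun x y : X' => k x y) (fun x y : X' => s x y))
    {x y : X} (hxy : s x y ≠ 0) :
    h x x = h y y ∧ h x y = h x x ∧ (h x x).re ≤ 1 := by
  classical
  have hsx : s x x ≠ 0 := fun h0 => hxy (hs.eq_zero h0 y).1
  have hsy : s y y ≠ 0 := fun h0 => hxy (hs.eq_zero h0 x).2
  set X' : Set X := {x, y} with hX'
  have hxm : x ∈ X' := by simp [hX']
  have hym : y ∈ X' := by simp [hX']
  have hM := hmin X' ⟨x, hxm⟩
  have hk' : IsKernel (fun a b : X' => k a b) := hk.comp (fun a : X' => (a : X))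
  have hCP : IsCP (fun a b : X' => k a b) := by
    refine isCP_of_two hk' ⟨x, hxm⟩ ⟨y, hym⟩ ?_
    rintro ⟨z, hz⟩
    rcases hz with hz | hz
    · exact Or.inl (Subtype.ext hz)
    · exact Or.inr (Subtype.ext hz)
  obtain ⟨g, hg, hgk⟩ := hM.2 (fun a b : X' => k a b)
    ⟨hCP, fun _ _ => 0, zero_kernel, fun a b => by simp⟩
  have e1 : g ⟨x, hxm⟩ ⟨x, hxm⟩ = 1 - h x x := by
    have := hgk ⟨x, hxm⟩ ⟨x, hxm⟩
    simp only at this
    rw [hks] at this
    exact (mul_right_cancel₀ hsx this).symm
  have e2 : g ⟨y, hym⟩ ⟨y, hym⟩ = 1 - h y y := by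
    have := hgk ⟨y, hym⟩ ⟨y, hym⟩
    simp only at this
    rw [hks] at this
    exact (mul_right_cancel₀ hsy this).symm
  have e3 : g ⟨x, hxm⟩ ⟨y, hym⟩ = 1 - h x y := by
    have := hgk ⟨x, hxm⟩ ⟨y, hym⟩
    simp only at this
    rw [hks] at this
    exact (mul_right_cancel₀ hxy this).symm
  have g1 := hg.diag_nonneg ⟨x, hxm⟩
  have g2 := hg.diag_nonneg ⟨y, hym⟩
  have g3 := hg.normSq_le ⟨x, hxm⟩ ⟨y, hym⟩
  rw [e1] at g1 g3
  rw [e2] at g2 g3
  rw [e3] at g3
  have h1 := hh.diag_nonneg x
  have h2 := hh.diag_nonneg y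
  have h3 := hh.normSq_le x y
  simp only [Complex.sub_re, Complex.one_re, Complex.sub_im, Complex.one_im,
    Complex.normSq_apply] at g1 g2 g3 h3
  obtain ⟨r1, r2, r3⟩ := two_point_rigidity (a := (h x x).re) (b := (h y y).re)
    (u := (h x y).re) (v := (h x y).im) h1.1 h2.1 (by linarith [g1.1]) (by linarith [g2.1])
    (by nlinarith) (by nlinarith)
  refine ⟨Complex.ext r1 (by rw [h1.2, h2.2]), Complex.ext r2 (by rw [r3, h1.2]), by
    linarith [g1.1]⟩

/-- A CP kernel times a (nonnegative) dyad is CP. -/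
lemma IsCP.dyad {s k : X → X → ℂ} (hs : IsCP s) (δ : X → ℂ)
    (hk : ∀ x y, k x y = δ x * starRingEnd ℂ (δ y) * s x y) (hkk : IsKernel k) : IsCP k := by
  classical
  refine ⟨hkk, ?_⟩
  intro n ι _ x hx W hW
  -- restrict to the points where `δ` does not vanish
  set I := {i : ι // δ (x i) ≠ 0} with hI
  have hP : (pickMatrix s (fun i : I => x i.1) (fun i : I => W i.1)).PosSemidef := by
    have h := (hW.submatrix (fun p : I × Fin n => (p.1.1, p.2))).mul_mul_conjTranspose_same
      (Matrix.diagonal fun p : I × Fin n => (δ (x p.1.1))⁻¹)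
    convert h using 1
    ext p q
    have hp : δ (x p.1.1) ≠ 0 := p.1.2
    have hq : δ (x q.1.1) ≠ 0 := q.1.2
    have hq' : (starRingEnd ℂ) (δ (x q.1.1)) ≠ 0 := by simpa using hq
    rw [Matrix.diagonal_conjTranspose, Matrix.mul_diagonal, Matrix.diagonal_mul]
    simp only [pickMatrix, Matrix.submatrix_apply, Matrix.of_apply, hk, Pi.star_apply,
      RCLike.star_def, map_inv₀]
    field_simp
  obtain ⟨Φ, hΦ, hΦx⟩ := hs.2 n I (fun i : I => x i.1)
    (fun i j hij => Subtype.ext (hx hij)) (fun i : I => W i.1) hP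
  refine ⟨fun y => if δ y ≠ 0 then Φ y else if hy : ∃ i, x i = y then W hy.choose else 0, ?_, ?_⟩
  · intro κ _ y
    have h := (hΦ κ y).mul_mul_conjTranspose_same
      (Matrix.diagonal fun p : κ × Fin n => δ (y p.1))
    convert h using 1
    ext p q
    rw [Matrix.diagonal_conjTranspose, Matrix.mul_diagonal, Matrix.diagonal_mul]
    simp only [pickMatrix, Matrix.of_apply, hk, Pi.star_apply, RCLike.star_def]
    by_cases hp : δ (y p.1) = 0
    · simp [hp]
    · by_cases hq : δ (y q.1) = 0
      · simp [hq]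
      · rw [if_pos hp, if_pos hq]
        ring
  · intro i
    by_cases hi : δ (x i) = 0
    · have hy : ∃ j, x j = x i := ⟨i, rfl⟩
      simp only [hi, ne_eq, not_true_eq_false, if_false, hy, dite_true]
      rw [hx hy.choose_spec]
    · simp only [ne_eq, hi, not_false_eq_true, if_true]
      exact hΦx ⟨i, hi⟩

/-- **Q1 holds.** Let `k` be a kernel on a nonempty set `X` and `s` a CP kernel with
`k = (1 - h) s` for some kernel `h`, such that for every nonempty `X' ⊆ X` the restriction of
`s` is a minimum certificate for the restriction of `k`.  Then `k` is CP, and `k` equals `s` up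
to a dyad. -/
theorem result : ∀ (X : Type*) [Nonempty X] (k s : X → X → ℂ), IsKernel k → IsCP s →
    (∃ h : X → X → ℂ, IsKernel h ∧ ∀ x y, k x y = (1 - h x y) * s x y) →
    (∀ X' : Set X, X'.Nonempty →
      IsMinimumCertificate (fun x y : X' => k x y) (fun x y : X' => s x y)) →
    IsCP k ∧ ∃ δ : X → ℂ, ∀ x y, k x y = δ x * starRingEnd ℂ (δ y) * s x y := by
  intro X _ k s hk hs ⟨h, hh, hks⟩ hmin
  set δ : X → ℂ := fun x => ((Real.sqrt (1 - (h x x).re) : ℝ) : ℂ) with hδ
  have hdy : ∀ x y, k x y = δ x * starRingEnd ℂ (δ y) * s x y := by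
    intro x y
    by_cases hxy : s x y = 0
    · rw [hks, hxy]; simp
    · obtain ⟨e1, e2, e3⟩ := h_const hk hs.1 hh hks hmin hxy
      have hconj : starRingEnd ℂ (δ y) = δ y := Complex.conj_ofReal _
      have hδy : δ y = δ x := by simp only [hδ]; rw [← e1]
      have him : (h x x).im = 0 := (hh.diag_nonneg x).2
      have hsq : δ x * δ x = 1 - h x x := by
        simp only [hδ]
        rw [← Complex.ofReal_mul, Real.mul_self_sqrt (by linarith)]
        apply Complex.ext
        · simp
        · simp [him]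
      rw [hks, hconj, hδy, hsq, e2]
  exact ⟨hs.dyad δ hdy hk, δ, hdy⟩

end Pool.Agent.Results.MP_a92470_an.HereditaryCertificate
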